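import Pool.Agent.Helper17.R8.Sheet

/-! # The window for `e 2` (MP_798d7d_nt)

If two members `(e, t)`, `(e', t')` of the family of rank eight with `|e k|, |e' k| ≤ C U ^ k`,
`T ≤ |t|, |t'| ≤ C T`, `U ^ 6 ≤ T` have the same invariants, then `|e 2 - e' 2| T ≤ K U ^ 8`. -/

set_option autoImplicit false

namespace Pool.Helper89.R9

open Pool.Helper17.R8

/-- the data are small -/
def OK (C : ℤ) (z : ℤ × (ℕ → ℤ)) : Prop :=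
  1 ≤ z.1 ∧ ∀ k, 2 ≤ k → k ≤ 8 → |z.2 k| ≤ C * z.1 ^ k

/-- weight at most `k` -/
def BO (C : ℤ) (k : ℕ) (f : ℤ × (ℕ → ℤ) → ℤ) : Prop :=
  ∃ K : ℤ, 0 ≤ K ∧ ∀ z, OK C z → |f z| ≤ K * z.1 ^ k

lemma bo_e (C : ℤ) (hC : 1 ≤ C) (k : ℕ) (h1 : 2 ≤ k) (h2 : k ≤ 8) : BO C k (fun z => z.2 k) :=
  ⟨C, by omega, fun z hz => hz.2 k h1 h2⟩

lemma BO.add {C : ℤ} {k : ℕ} {f g : ℤ × (ℕ → ℤ) → ℤ} (hf : BO C k f) (hg : BO C k g) :
    BO C k (fun z => f z + g z) := by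
  obtain ⟨K, hK, hf⟩ := hf
  obtain ⟨L, hL, hg⟩ := hg
  refine ⟨K + L, by omega, fun z hz => (abs_add_le _ _).trans ?_⟩
  rw [add_mul]
  exact add_le_add (hf z hz) (hg z hz)

lemma BO.cmul {C : ℤ} {k : ℕ} {f : ℤ × (ℕ → ℤ) → ℤ} (c : ℤ) (hf : BO C k f) :
    BO C k (fun z => c * f z) := by
  obtain ⟨K, hK, hf⟩ := hf
  refine ⟨|c| * K, by positivity, fun z hz => ?_⟩
  rw [abs_mul, mul_assoc]
  exact mul_le_mul_of_nonneg_left (hf z hz) (abs_nonneg _)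

lemma BO.sub {C : ℤ} {k : ℕ} {f g : ℤ × (ℕ → ℤ) → ℤ} (hf : BO C k f) (hg : BO C k g) :
    BO C k (fun z => f z - g z) := by
  have := hf.add (hg.cmul (-1))
  refine Eq.mp ?_ this
  congr 1
  funext z
  ring

lemma BO.mul {C : ℤ} {k l : ℕ} {f g : ℤ × (ℕ → ℤ) → ℤ} (hf : BO C k f) (hg : BO C l g) :
    BO C (k + l) (fun z => f z * g z) := by
  obtain ⟨K, hK, hf⟩ := hf
  obtain ⟨L, hL, hg⟩ := hg
  refine ⟨K * L, by positivity, fun z hz => ?_⟩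
  have hU : 0 ≤ z.1 := by have := hz.1; omega
  rw [abs_mul, pow_add]
  have e : K * L * (z.1 ^ k * z.1 ^ l) = (K * z.1 ^ k) * (L * z.1 ^ l) := by ring
  rw [e]
  exact mul_le_mul (hf z hz) (hg z hz) (abs_nonneg _) (by positivity)

section
variable (C : ℤ) (hC : 1 ≤ C)

def A4 (z : ℤ × (ℕ → ℤ)) : ℤ := z.2 3 * z.2 3
def A3 (z : ℤ × (ℕ → ℤ)) : ℤ := 2 * (z.2 3 * z.2 5) - 4 * z.2 8
def A2 (z : ℤ × (ℕ → ℤ)) : ℤ := z.2 5 * z.2 5 + 2 * (z.2 3 * z.2 7) - 4 * (z.2 8 * z.2 2)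
def A1 (z : ℤ × (ℕ → ℤ)) : ℤ := 2 * (z.2 5 * z.2 7) - 4 * (z.2 8 * z.2 4)
def A0 (z : ℤ × (ℕ → ℤ)) : ℤ := z.2 7 * z.2 7 - 4 * (z.2 8 * z.2 6)

include hC

lemma bA4 : BO C 6 A4 := (bo_e C hC 3 (by norm_num) (by norm_num)).mul
  (bo_e C hC 3 (by norm_num) (by norm_num))
lemma bA3 : BO C 8 A3 := (((bo_e C hC 3 (by norm_num) (by norm_num)).mul
  (bo_e C hC 5 (by norm_num) (by norm_num))).cmul 2).sub
  ((bo_e C hC 8 (by norm_num) (by norm_num)).cmul 4)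
lemma bA2 : BO C 10 A2 := (((bo_e C hC 5 (by norm_num) (by norm_num)).mul
  (bo_e C hC 5 (by norm_num) (by norm_num))).add
  (((bo_e C hC 3 (by norm_num) (by norm_num)).mul
  (bo_e C hC 7 (by norm_num) (by norm_num))).cmul 2)).sub
  (((bo_e C hC 8 (by norm_num) (by norm_num)).mul
  (bo_e C hC 2 (by norm_num) (by norm_num))).cmul 4)
lemma bA1 : BO C 12 A1 := (((bo_e C hC 5 (by norm_num) (by norm_num)).mul
  (bo_e C hC 7 (by norm_num) (by norm_num))).cmul 2).sub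
  (((bo_e C hC 8 (by norm_num) (by norm_num)).mul
  (bo_e C hC 4 (by norm_num) (by norm_num))).cmul 4)
lemma bA0 : BO C 14 A0 := ((bo_e C hC 7 (by norm_num) (by norm_num)).mul
  (bo_e C hC 7 (by norm_num) (by norm_num))).sub
  (((bo_e C hC 8 (by norm_num) (by norm_num)).mul
  (bo_e C hC 6 (by norm_num) (by norm_num))).cmul 4)
end

/-- the coefficients of `fJ` below the leading one -/
def J4 (z : ℤ × (ℕ → ℤ)) : ℤ := (-432) * A4 z + 576 * (z.2 2 * z.2 4) + (-3456) * z.2 6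
def J3 (z : ℤ × (ℕ → ℤ)) : ℤ := 864 * A1 z + (-144) * (A2 z * z.2 2) + (-144) * (A3 z * z.2 4) +
  864 * (A4 z * z.2 6) + (-576) * (z.2 2 * z.2 4 * z.2 6) + (-1728) * (z.2 2 * z.2 2 * z.2 8) +
  4608 * (z.2 4 * z.2 8) + 128 * (z.2 4 * z.2 4 * z.2 4) + 1728 * (z.2 6 * z.2 6)
def J2 (z : ℤ × (ℕ → ℤ)) : ℤ := (-432) * (A0 z * z.2 2 * z.2 2) + 1152 * (A0 z * z.2 4) +
  (-216) * (A1 z * A4 z) + 144 * (A1 z * z.2 2 * z.2 4) + (-864) * (A1 z * z.2 6) +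
  36 * (A2 z * A3 z) + 144 * (A2 z * z.2 2 * z.2 6) + (-96) * (A2 z * z.2 4 * z.2 4) +
  (-1152) * (A2 z * z.2 8) + 864 * (A3 z * z.2 2 * z.2 8) + 144 * (A3 z * z.2 4 * z.2 6) +
  (-1152) * (A4 z * z.2 4 * z.2 8) + (-432) * (A4 z * z.2 6 * z.2 6)
def J1 (z : ℤ × (ℕ → ℤ)) : ℤ := (-288) * (A0 z * A2 z) + 216 * (A0 z * A3 z * z.2 2) +
  (-288) * (A0 z * A4 z * z.2 4) + (-36) * (A1 z * A2 z * z.2 2) +
  (-36) * (A1 z * A3 z * z.2 4) + 216 * (A1 z * A4 z * z.2 6) + 108 * (A1 z * A1 z) +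
  (-36) * (A2 z * A3 z * z.2 6) + 288 * (A2 z * A4 z * z.2 8) + 24 * (A2 z * A2 z * z.2 4) +
  (-108) * (A3 z * A3 z * z.2 8)
def J0 (z : ℤ × (ℕ → ℤ)) : ℤ := 72 * (A0 z * A2 z * A4 z) + (-27) * (A0 z * A3 z * A3 z) +
  9 * (A1 z * A2 z * A3 z) + (-27) * (A1 z * A1 z * A4 z) + (-2) * (A2 z * A2 z * A2 z)

/-- the coefficients of `fI` below the leading one -/
def I2 (z : ℤ × (ℕ → ℤ)) : ℤ := (-12) * A3 z + (-48) * (z.2 2 * z.2 6) + 16 * (z.2 4 * z.2 4) +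
  (-192) * z.2 8
def I1 (z : ℤ × (ℕ → ℤ)) : ℤ := (-48) * A0 z + 12 * (A1 z * z.2 2) + (-8) * (A2 z * z.2 4) +
  12 * (A3 z * z.2 6) + 48 * (A4 z * z.2 8)
def I0 (z : ℤ × (ℕ → ℤ)) : ℤ := 12 * (A0 z * A4 z) + (-3) * (A1 z * A3 z) + 1 * (A2 z * A2 z)

lemma fJ_eq (U : ℤ) (e : ℕ → ℤ) (t : ℤ) : fJ e t = 1728 * t ^ 5 + (J4 (U, e) * t ^ 4 +
    J3 (U, e) * t ^ 3 + J2 (U, e) * t ^ 2 + J1 (U, e) * t + J0 (U, e)) := by
  simp only [fJ, q4, q3, q2, q1, q0, J4, J3, J2, J1, J0, A4, A3, A2, A1, A0]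
  ring

lemma fI_eq (U : ℤ) (e : ℕ → ℤ) (t : ℤ) : fI e t = 48 * e 2 * t ^ 3 + (I2 (U, e) * t ^ 2 +
    I1 (U, e) * t + I0 (U, e)) := by
  simp only [fI, q4, q3, q2, q1, q0, I2, I1, I0, A4, A3, A2, A1, A0]
  ring

section
variable (C : ℤ) (hC : 1 ≤ C)
include hC

lemma bJ4 : BO C 6 J4 := by
  have e2 := bo_e C hC 2 (by norm_num) (by norm_num)
  have e4 := bo_e C hC 4 (by norm_num) (by norm_num)
  have e6 := bo_e C hC 6 (by norm_num) (by norm_num)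
  exact (((bA4 C hC).cmul _).add ((e2.mul e4).cmul _)).add (e6.cmul _)

lemma bJ3 : BO C 12 J3 := by
  have e2 := bo_e C hC 2 (by norm_num) (by norm_num)
  have e4 := bo_e C hC 4 (by norm_num) (by norm_num)
  have e6 := bo_e C hC 6 (by norm_num) (by norm_num)
  have e8 := bo_e C hC 8 (by norm_num) (by norm_num)
  have a4 := bA4 C hC
  have a3 := bA3 C hC
  have a2 := bA2 C hC
  have a1 := bA1 C hC
  exact (((((((((a1).cmul _).add ((a2.mul e2).cmul _)).add ((a3.mul e4).cmul _)).add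
    ((a4.mul e6).cmul _)).add (((e2.mul e4).mul e6).cmul _)).add
    (((e2.mul e2).mul e8).cmul _)).add ((e4.mul e8).cmul _)).add
    (((e4.mul e4).mul e4).cmul _)).add ((e6.mul e6).cmul _)

lemma bJ2 : BO C 18 J2 := by
  have e2 := bo_e C hC 2 (by norm_num) (by norm_num)
  have e4 := bo_e C hC 4 (by norm_num) (by norm_num)
  have e6 := bo_e C hC 6 (by norm_num) (by norm_num)
  have e8 := bo_e C hC 8 (by norm_num) (by norm_num)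
  have a4 := bA4 C hC
  have a3 := bA3 C hC
  have a2 := bA2 C hC
  have a1 := bA1 C hC
  have a0 := bA0 C hC
  exact (((((((((((((((a0.mul e2).mul e2).cmul _)).add ((a0.mul e4).cmul _)).add
    ((a1.mul a4).cmul _)).add (((a1.mul e2).mul e4).cmul _)).add ((a1.mul e6).cmul _)).add
    ((a2.mul a3).cmul _)).add (((a2.mul e2).mul e6).cmul _)).add
    (((a2.mul e4).mul e4).cmul _)).add ((a2.mul e8).cmul _)).add
    (((a3.mul e2).mul e8).cmul _)).add (((a3.mul e4).mul e6).cmul _)).add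
    (((a4.mul e4).mul e8).cmul _)).add (((a4.mul e6).mul e6).cmul _)

lemma bJ1 : BO C 24 J1 := by
  have e2 := bo_e C hC 2 (by norm_num) (by norm_num)
  have e4 := bo_e C hC 4 (by norm_num) (by norm_num)
  have e6 := bo_e C hC 6 (by norm_num) (by norm_num)
  have e8 := bo_e C hC 8 (by norm_num) (by norm_num)
  have a4 := bA4 C hC
  have a3 := bA3 C hC
  have a2 := bA2 C hC
  have a1 := bA1 C hC
  have a0 := bA0 C hC
  exact ((((((((((a0.mul a2).cmul _).add (((a0.mul a3).mul e2).cmul _)).add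
    (((a0.mul a4).mul e4).cmul _)).add (((a1.mul a2).mul e2).cmul _)).add
    (((a1.mul a3).mul e4).cmul _)).add (((a1.mul a4).mul e6).cmul _)).add
    ((a1.mul a1).cmul _)).add (((a2.mul a3).mul e6).cmul _)).add
    (((a2.mul a4).mul e8).cmul _)).add (((a2.mul a2).mul e4).cmul _)|>.add
    (((a3.mul a3).mul e8).cmul _)

lemma bJ0 : BO C 30 J0 := by
  have a4 := bA4 C hC
  have a3 := bA3 C hC
  have a2 := bA2 C hC
  have a1 := bA1 C hC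
  have a0 := bA0 C hC
  exact ((((((a0.mul a2).mul a4).cmul _).add (((a0.mul a3).mul a3).cmul _)).add
    (((a1.mul a2).mul a3).cmul _)).add (((a1.mul a1).mul a4).cmul _)).add
    (((a2.mul a2).mul a2).cmul _)

lemma bI2 : BO C 8 I2 := by
  have e2 := bo_e C hC 2 (by norm_num) (by norm_num)
  have e4 := bo_e C hC 4 (by norm_num) (by norm_num)
  have e6 := bo_e C hC 6 (by norm_num) (by norm_num)
  have e8 := bo_e C hC 8 (by norm_num) (by norm_num)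
  exact ((((bA3 C hC).cmul _).add ((e2.mul e6).cmul _)).add ((e4.mul e4).cmul _)).add (e8.cmul _)

lemma bI1 : BO C 14 I1 := by
  have e2 := bo_e C hC 2 (by norm_num) (by norm_num)
  have e4 := bo_e C hC 4 (by norm_num) (by norm_num)
  have e6 := bo_e C hC 6 (by norm_num) (by norm_num)
  have e8 := bo_e C hC 8 (by norm_num) (by norm_num)
  exact (((((bA0 C hC).cmul _).add (((bA1 C hC).mul e2).cmul _)).add
    (((bA2 C hC).mul e4).cmul _)).add (((bA3 C hC).mul e6).cmul _)).add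
    (((bA4 C hC).mul e8).cmul _)

lemma bI0 : BO C 20 I0 :=
  ((((bA0 C hC).mul (bA4 C hC)).cmul _).add (((bA1 C hC).mul (bA3 C hC)).cmul _)).add
    (((bA2 C hC).mul (bA2 C hC)).cmul _)

end

/-- a monomial -/
lemma mon {K C U T t a : ℤ} (hK : 0 ≤ K) (hU : 1 ≤ U) (hT : U ^ 6 ≤ T)
    (ht : |t| ≤ C * T) (w i j : ℕ) (ha : |a| ≤ K * U ^ (w + 6 * j)) :
    |a * t ^ i| ≤ K * C ^ i * (U ^ w * T ^ (i + j)) := by
  have hT1 : 0 ≤ T := le_trans (by positivity) hT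
  have h1 : |t ^ i| ≤ (C * T) ^ i := by
    rw [abs_pow]
    exact pow_le_pow_left₀ (abs_nonneg _) ht i
  have h2 : U ^ (w + 6 * j) ≤ U ^ w * T ^ j := by
    rw [pow_add, pow_mul]
    exact mul_le_mul_of_nonneg_left (pow_le_pow_left₀ (by positivity) hT j) (by positivity)
  rw [abs_mul]
  calc |a| * |t ^ i| ≤ (K * (U ^ w * T ^ j)) * (C * T) ^ i :=
        mul_le_mul (ha.trans (mul_le_mul_of_nonneg_left h2 hK)) h1 (abs_nonneg _) (by positivity)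
    _ = K * C ^ i * (U ^ w * T ^ (i + j)) := by ring

lemma quint (t t' T U KR : ℤ) (hT1 : 1 ≤ T) (hKR0 : 0 ≤ KR) (hU : 1 ≤ U) (ht1 : T ≤ |t|)
    (j4 : 1728 * |t ^ 5 - t' ^ 5| ≤ 2 * (KR * (U ^ 6 * T ^ 4))) : |t - t'| ≤ KR * U ^ 6 := by
  have j5 : 12 * (t ^ 5 - t' ^ 5) = (t - t') * (3 * (2 * t' ^ 2 + t' * t) ^ 2 +
      t ^ 2 * (3 * t' + 2 * t) ^ 2 + 8 * t ^ 4) := by ring
  have j6 : 8 * T ^ 4 ≤ 3 * (2 * t' ^ 2 + t' * t) ^ 2 +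
      t ^ 2 * (3 * t' + 2 * t) ^ 2 + 8 * t ^ 4 := by
    have h1 : T ^ 4 ≤ t ^ 4 := by
      have := pow_le_pow_left₀ (by omega : (0 : ℤ) ≤ T) ht1 4
      rw [← abs_pow, abs_of_nonneg (by positivity : (0 : ℤ) ≤ t ^ 4)] at this
      exact this
    have h2 : 0 ≤ 3 * (2 * t' ^ 2 + t' * t) ^ 2 := by positivity
    have h3 : 0 ≤ t ^ 2 * (3 * t' + 2 * t) ^ 2 := by positivity
    linarith
  have j7 : |t - t'| * (8 * T ^ 4) ≤ 12 * |t ^ 5 - t' ^ 5| := by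
    have e1 : 12 * |t ^ 5 - t' ^ 5| = |t - t'| * (3 * (2 * t' ^ 2 + t' * t) ^ 2 +
        t ^ 2 * (3 * t' + 2 * t) ^ 2 + 8 * t ^ 4) := by
      have : 12 * |t ^ 5 - t' ^ 5| = |12 * (t ^ 5 - t' ^ 5)| := by
        rw [abs_mul]
        norm_num
      rw [this, j5, abs_mul, abs_of_nonneg (by positivity : (0 : ℤ) ≤ 3 * (2 * t' ^ 2 +
        t' * t) ^ 2 + t ^ 2 * (3 * t' + 2 * t) ^ 2 + 8 * t ^ 4)]
    rw [e1]
    exact mul_le_mul_of_nonneg_left j6 (abs_nonneg _)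
  have hT4 : 0 < T ^ 4 := by positivity
  refine le_of_mul_le_mul_right ?_ hT4
  have k1 : |t - t'| * (8 * T ^ 4) = 8 * (|t - t'| * T ^ 4) := by ring
  have k2 : KR * (U ^ 6 * T ^ 4) = KR * U ^ 6 * T ^ 4 := by ring
  have k3 : 0 ≤ KR * U ^ 6 * T ^ 4 := by positivity
  rw [k1] at j7
  rw [k2] at j4
  linarith

lemma cubic (C t t' T U KR KS a a' : ℤ) (hC : 1 ≤ C) (hT1 : 1 ≤ T) (hKR0 : 0 ≤ KR)
    (hKS0 : 0 ≤ KS) (hU : 1 ≤ U) (ht1 : T ≤ |t|) (ht2 : |t| ≤ C * T) (ht2' : |t'| ≤ C * T)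
    (ha' : |a'| ≤ C * U ^ 2) (h5 : |t - t'| ≤ KR * U ^ 6)
    (i4 : 48 * |a * t ^ 3 - a' * t' ^ 3| ≤ 2 * (KS * (U ^ 8 * T ^ 2))) :
    |a - a'| * T ≤ (KS + 3 * C ^ 3 * KR) * U ^ 8 := by
  have i5 : |a' * (t ^ 3 - t' ^ 3)| ≤ 3 * C ^ 3 * KR * (U ^ 8 * T ^ 2) := by
    have e1 : a' * (t ^ 3 - t' ^ 3) = a' * (t - t') * (t ^ 2 + t * t' + t' ^ 2) := by ring
    rw [e1, abs_mul, abs_mul]
    have e2 : |t ^ 2 + t * t' + t' ^ 2| ≤ 3 * (C * T) ^ 2 := by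
      have a1 := abs_add_le (t ^ 2 + t * t') (t' ^ 2)
      have a2 := abs_add_le (t ^ 2) (t * t')
      have a3 : |t ^ 2| ≤ (C * T) ^ 2 := by
        rw [abs_pow]
        exact pow_le_pow_left₀ (abs_nonneg _) ht2 2
      have a4 : |t' ^ 2| ≤ (C * T) ^ 2 := by
        rw [abs_pow]
        exact pow_le_pow_left₀ (abs_nonneg _) ht2' 2
      have a5 : |t * t'| ≤ (C * T) ^ 2 := by
        rw [abs_mul, sq]
        exact mul_le_mul ht2 ht2' (abs_nonneg _) (by positivity)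
      linarith
    have e4 : |a'| * |t - t'| ≤ (C * U ^ 2) * (KR * U ^ 6) :=
      mul_le_mul ha' h5 (abs_nonneg _) (by positivity)
    have e5 := mul_le_mul e4 e2 (abs_nonneg _) (by positivity)
    refine e5.trans (le_of_eq ?_)
    ring
  have i6 : |a - a'| * T ^ 3 ≤ (KS + 3 * C ^ 3 * KR) * (U ^ 8 * T ^ 2) := by
    have e1 : (a - a') * t ^ 3 = (a * t ^ 3 - a' * t' ^ 3) - a' * (t ^ 3 - t' ^ 3) := by ring
    have e2 : |(a - a') * t ^ 3| ≤ |a * t ^ 3 - a' * t' ^ 3| + |a' * (t ^ 3 - t' ^ 3)| := by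
      rw [e1]
      exact abs_sub _ _
    have e3 : |a - a'| * T ^ 3 ≤ |(a - a') * t ^ 3| := by
      rw [abs_mul, abs_pow]
      exact mul_le_mul_of_nonneg_left (pow_le_pow_left₀ (by omega) ht1 3) (abs_nonneg _)
    have e4 : 0 ≤ KS * (U ^ 8 * T ^ 2) := by positivity
    have e5 : |a * t ^ 3 - a' * t' ^ 3| ≤ KS * (U ^ 8 * T ^ 2) := by
      have := abs_nonneg (a * t ^ 3 - a' * t' ^ 3)
      linarith
    rw [add_mul]
    linarith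
  have hT2 : 0 < T ^ 2 := by positivity
  refine le_of_mul_le_mul_right ?_ hT2
  have e1 : (|a - a'| * T) * T ^ 2 = |a - a'| * T ^ 3 := by ring
  have e2 : ((KS + 3 * C ^ 3 * KR) * U ^ 8) * T ^ 2 =
      (KS + 3 * C ^ 3 * KR) * (U ^ 8 * T ^ 2) := by ring
  rw [e1, e2]
  exact i6

/-- the part of `fJ` below the leading term -/
def LJ (U : ℤ) (e : ℕ → ℤ) (t : ℤ) : ℤ :=
  J4 (U, e) * t ^ 4 + J3 (U, e) * t ^ 3 + J2 (U, e) * t ^ 2 + J1 (U, e) * t + J0 (U, e)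
/-- the part of `fI` below the leading term -/
def LI (U : ℤ) (e : ℕ → ℤ) (t : ℤ) : ℤ := I2 (U, e) * t ^ 2 + I1 (U, e) * t + I0 (U, e)

lemma bLJ (C : ℤ) (hC : 1 ≤ C) : ∃ KR : ℤ, 0 ≤ KR ∧ ∀ (U T : ℤ) (e : ℕ → ℤ) (t : ℤ), 1 ≤ U →
    U ^ 6 ≤ T → (∀ k, 2 ≤ k → k ≤ 8 → |e k| ≤ C * U ^ k) → |t| ≤ C * T →
    |LJ U e t| ≤ KR * (U ^ 6 * T ^ 4) := by
  obtain ⟨k4, hk4, b4⟩ := bJ4 C hC
  obtain ⟨k3, hk3, b3⟩ := bJ3 C hC
  obtain ⟨k2, hk2, b2⟩ := bJ2 C hC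
  obtain ⟨k1, hk1, b1⟩ := bJ1 C hC
  obtain ⟨k0, hk0, b0⟩ := bJ0 C hC
  refine ⟨k4 * C ^ 4 + k3 * C ^ 3 + k2 * C ^ 2 + k1 * C ^ 1 + k0 * C ^ 0, by positivity, ?_⟩
  intro U T e t hU hT he ht
  have hz : OK C (U, e) := ⟨hU, he⟩
  have m4 := mon hk4 hU hT ht 6 4 0 (b4 _ hz)
  have m3 := mon hk3 hU hT ht 6 3 1 (b3 _ hz)
  have m2 := mon hk2 hU hT ht 6 2 2 (b2 _ hz)
  have m1 := mon hk1 hU hT ht 6 1 3 (b1 _ hz)
  have m0 := mon hk0 hU hT ht 6 0 4 (b0 _ hz)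
  rw [pow_zero, mul_one] at m0
  have m1' : |J1 (U, e) * t| ≤ k1 * C ^ 1 * (U ^ 6 * T ^ (1 + 3)) := by
    rw [pow_one t] at m1
    exact m1
  have s1 := abs_add_le (J4 (U, e) * t ^ 4 + J3 (U, e) * t ^ 3 + J2 (U, e) * t ^ 2 +
    J1 (U, e) * t) (J0 (U, e))
  have s2 := abs_add_le (J4 (U, e) * t ^ 4 + J3 (U, e) * t ^ 3 + J2 (U, e) * t ^ 2)
    (J1 (U, e) * t)
  have s3 := abs_add_le (J4 (U, e) * t ^ 4 + J3 (U, e) * t ^ 3) (J2 (U, e) * t ^ 2)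
  have s4 := abs_add_le (J4 (U, e) * t ^ 4) (J3 (U, e) * t ^ 3)
  have e1 : (k4 * C ^ 4 + k3 * C ^ 3 + k2 * C ^ 2 + k1 * C ^ 1 + k0 * C ^ 0) * (U ^ 6 * T ^ 4) =
      k4 * C ^ 4 * (U ^ 6 * T ^ (4 + 0)) +
      k3 * C ^ 3 * (U ^ 6 * T ^ (3 + 1)) + k2 * C ^ 2 * (U ^ 6 * T ^ (2 + 2)) +
      k1 * C ^ 1 * (U ^ 6 * T ^ (1 + 3)) + k0 * C ^ 0 * (U ^ 6 * T ^ (0 + 4)) := by
    ring
  rw [e1]
  unfold LJ
  linarith

lemma bLI (C : ℤ) (hC : 1 ≤ C) : ∃ KS : ℤ, 0 ≤ KS ∧ ∀ (U T : ℤ) (e : ℕ → ℤ) (t : ℤ), 1 ≤ U →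
    U ^ 6 ≤ T → (∀ k, 2 ≤ k → k ≤ 8 → |e k| ≤ C * U ^ k) → |t| ≤ C * T →
    |LI U e t| ≤ KS * (U ^ 8 * T ^ 2) := by
  obtain ⟨l2, hl2, c2⟩ := bI2 C hC
  obtain ⟨l1, hl1, c1⟩ := bI1 C hC
  obtain ⟨l0, hl0, c0⟩ := bI0 C hC
  refine ⟨l2 * C ^ 2 + l1 * C ^ 1 + l0 * C ^ 0, by positivity, ?_⟩
  intro U T e t hU hT he ht
  have hz : OK C (U, e) := ⟨hU, he⟩
  have m2 := mon hl2 hU hT ht 8 2 0 (c2 _ hz)
  have m1 := mon hl1 hU hT ht 8 1 1 (c1 _ hz)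
  have m0 := mon hl0 hU hT ht 8 0 2 (c0 _ hz)
  rw [pow_zero, mul_one] at m0
  have m1' : |I1 (U, e) * t| ≤ l1 * C ^ 1 * (U ^ 8 * T ^ (1 + 1)) := by
    rw [pow_one t] at m1
    exact m1
  have s3 := abs_add_le (I2 (U, e) * t ^ 2 + I1 (U, e) * t) (I0 (U, e))
  have s4 := abs_add_le (I2 (U, e) * t ^ 2) (I1 (U, e) * t)
  have e1 : (l2 * C ^ 2 + l1 * C ^ 1 + l0 * C ^ 0) * (U ^ 8 * T ^ 2) =
      l2 * C ^ 2 * (U ^ 8 * T ^ (2 + 0)) +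
      l1 * C ^ 1 * (U ^ 8 * T ^ (1 + 1)) + l0 * C ^ 0 * (U ^ 8 * T ^ (0 + 2)) := by
    ring
  rw [e1]
  unfold LI
  linarith

/-- two members with the same invariants have almost the same `e 2` -/
theorem win (C : ℤ) (hC : 1 ≤ C) : ∃ K : ℤ, 0 ≤ K ∧ ∀ (U T : ℤ) (e e' : ℕ → ℤ) (t t' : ℤ),
    1 ≤ U → U ^ 6 ≤ T → (∀ k, 2 ≤ k → k ≤ 8 → |e k| ≤ C * U ^ k) →
    (∀ k, 2 ≤ k → k ≤ 8 → |e' k| ≤ C * U ^ k) → T ≤ |t| → |t| ≤ C * T → |t'| ≤ C * T →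
    fI e t = fI e' t' → fJ e t = fJ e' t' → |e 2 - e' 2| * T ≤ K * U ^ 8 := by
  obtain ⟨KR, hKR0, hR⟩ := bLJ C hC
  obtain ⟨KS, hKS0, hS⟩ := bLI C hC
  refine ⟨KS + 3 * C ^ 3 * KR, by positivity, ?_⟩
  intro U T e e' t t' hU hT he he' ht1 ht2 ht2' hI hJ
  have hT1 : 1 ≤ T := le_trans (one_le_pow₀ hU) hT
  have j4 : 1728 * |t ^ 5 - t' ^ 5| ≤ 2 * (KR * (U ^ 6 * T ^ 4)) := by
    have r1 := hR U T e t hU hT he ht2
    have r2 := hR U T e' t' hU hT he' ht2'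
    have j1 := fJ_eq U e t
    have j2 := fJ_eq U e' t'
    have j3 : 1728 * (t ^ 5 - t' ^ 5) = LJ U e' t' - LJ U e t := by
      unfold LJ
      linarith
    have : 1728 * |t ^ 5 - t' ^ 5| = |1728 * (t ^ 5 - t' ^ 5)| := by
      rw [abs_mul]
      norm_num
    rw [this, j3]
    refine (abs_sub _ _).trans ?_
    linarith
  have i4 : 48 * |e 2 * t ^ 3 - e' 2 * t' ^ 3| ≤ 2 * (KS * (U ^ 8 * T ^ 2)) := by
    have s1 := hS U T e t hU hT he ht2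
    have s2 := hS U T e' t' hU hT he' ht2'
    have i1 := fI_eq U e t
    have i2 := fI_eq U e' t'
    have i3 : 48 * (e 2 * t ^ 3 - e' 2 * t' ^ 3) = LI U e' t' - LI U e t := by
      unfold LI
      linarith
    have : 48 * |e 2 * t ^ 3 - e' 2 * t' ^ 3| = |48 * (e 2 * t ^ 3 - e' 2 * t' ^ 3)| := by
      rw [abs_mul]
      norm_num
    rw [this, i3]
    refine (abs_sub _ _).trans ?_
    linarith
  exact cubic C t t' T U KR KS (e 2) (e' 2) hC hT1 hKR0 hKS0 hU ht1 ht2 ht2'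
    (he' 2 (by norm_num) (by norm_num)) (quint t t' T U KR hT1 hKR0 hU ht1 j4) i4

end Pool.Helper89.R9
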