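import Pool.Agent.Helper89.R9.Sheet
import Pool.Agent.Helper17.R8.FIN

/-! # Row FIN9 (MP_798d7d_nt, rank nine) -/

set_option autoImplicit false

namespace Pool.Helper89.R9W

open Pool.Helper17.RS (RS NR ST_GEN cnt_RS_fin)

theorem fin9_card_box (m : ℕ) : (Box m).card = m ^ 10 := by
  unfold Box VB
  rw [Finset.card_product, Fintype.card_piFinset, Nat.card_Ico]
  simp only [Finset.card_range, Finset.prod_const, Finset.card_univ, Fintype.card_fin]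
  have : 2 * m ^ 4 - m ^ 4 = m ^ 4 := by omega
  rw [this]
  ring

theorem fin9_main (hCERT : ST_CERT9) (hCONG : ST_CONG9) (hBND : ST_BND9) (hSIEVE : ST_SIE9)
    (hPAIR : ST_PAIR9) : ∃ C : ℤ, 1 ≤ C ∧ ∀ δ : ℝ, 0 < δ → ∃ c : ℝ, 0 < c ∧ ∃ n0 : ℕ,
      ∀ n : ℕ, n0 ≤ n → c * (n : ℝ) ^ (30 - 3 * δ) ≤ ((RS 9 C (n ^ 20)).ncard : ℝ) := by
  classical
  obtain ⟨C, hC, m1, hB⟩ := hBND
  obtain ⟨m2, hS⟩ := hSIEVE
  refine ⟨C, hC, fun δ hδ => ?_⟩
  obtain ⟨K, hK, m3, hP⟩ := hPAIR δ hδ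
  refine ⟨1 / (4 * K), by positivity, m1 + m2 + m3 + 1, fun n hn => ?_⟩
  have hn1 : 1 ≤ n := by omega
  obtain ⟨m, hm⟩ : ∃ m, m = n ^ 3 := ⟨_, rfl⟩
  have hmn : n ≤ m := by
    rw [hm]
    exact Nat.le_self_pow (by norm_num) n
  have hm1 : 1 ≤ m := by omega
  set bad := (Box m).filter (fun T => ∃ q : ℕ, q.Prime ∧ QQ < q ∧ (q : ℤ) ^ 4 ∣ cA (ww T) ∧
    (q : ℤ) ^ 6 ∣ cB (ww T)) with hbad
  set G := (Box m).filter (fun T => ¬ ∃ q : ℕ, q.Prime ∧ QQ < q ∧ (q : ℤ) ^ 4 ∣ cA (ww T) ∧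
    (q : ℤ) ^ 6 ∣ cB (ww T)) with hG
  have hbc : 2 * bad.card ≤ m ^ 10 := hS m (by omega)
  have hsum : bad.card + G.card = m ^ 10 := by
    rw [hbad, hG, Finset.card_filter_add_card_filter_not, fin9_card_box]
  have hGc : m ^ 10 ≤ 2 * G.card := by omega
  set φ : (Fin 6 → ℕ) × ℕ → ℤ × ℤ := fun T => (cA (ww T), cB (ww T)) with hφ
  have hcs := Pool.Helper17.R8.fin_cs G φ
  have hpair : ((((G ×ˢ G).filter (fun p => φ p.1 = φ p.2)).card : ℕ) : ℝ) ≤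
      K * (m : ℝ) ^ (10 + δ) := by
    refine le_trans ?_ (hP m (by omega))
    refine Nat.cast_le.2 (Finset.card_le_card ?_)
    intro p hp
    rw [Finset.mem_filter, Finset.mem_product] at hp ⊢
    refine ⟨⟨(Finset.mem_filter.1 hp.1.1).1, (Finset.mem_filter.1 hp.1.2).1⟩, ?_⟩
    have := hp.2
    simp only [hφ, Prod.mk.injEq] at this
    exact this
  have hsub : ((G.image φ : Finset (ℤ × ℤ)) : Set (ℤ × ℤ)) ⊆ RS 9 C (n ^ 20) := by
    intro p hp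
    rw [Finset.mem_coe, Finset.mem_image] at hp
    obtain ⟨T, hT, rfl⟩ := hp
    rw [hG, Finset.mem_filter] at hT
    obtain ⟨c1, c2, c3⟩ := hCERT (ww T) (hCONG.1 T)
    obtain ⟨b1, b2, -⟩ := hB m (by omega) T hT.1
    have hn1' : (1 : ℤ) ≤ (n : ℤ) := by exact_mod_cast hn1
    refine ⟨c1, ?_, ?_, ?_, ?_⟩
    · rintro q hq ⟨h4, h6⟩
      by_cases hqQ : q ≤ QQ
      · exact c2 q hq hqQ ⟨(dvd_pow_self _ (by norm_num)).trans h4,
          (dvd_pow_self _ (by norm_num)).trans h6⟩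
      · exact hT.2 ⟨q, hq, by omega, h4, h6⟩
    · have e1 : ((n ^ 20 : ℕ) : ℤ) ^ 4 = (n : ℤ) ^ 80 := by push_cast; ring
      have e2 : (m : ℤ) ^ 26 = (n : ℤ) ^ 78 := by rw [hm]; push_cast; ring
      rw [e1]
      rw [e2] at b1
      exact b1.trans (mul_le_mul_of_nonneg_left (pow_le_pow_right₀ hn1' (by norm_num))
        (by linarith))
    · have e1 : ((n ^ 20 : ℕ) : ℤ) ^ 6 = (n : ℤ) ^ 120 := by push_cast; ring
      have e2 : (m : ℤ) ^ 40 = (n : ℤ) ^ 120 := by rw [hm]; push_cast; ring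
      rw [e1]
      rw [e2] at b2
      exact b2
    · exact_mod_cast c3
  have hle : (G.image φ).card ≤ (RS 9 C (n ^ 20)).ncard := by
    rw [← Set.ncard_coe_finset]
    exact Set.ncard_le_ncard hsub (cnt_RS_fin 9 C (n ^ 20))
  have hmr : (0 : ℝ) < (m : ℝ) := by exact_mod_cast hm1
  have hnr : (0 : ℝ) < (n : ℝ) := by exact_mod_cast hn1
  have e1 : (m : ℝ) ^ 10 ≤ 2 * (G.card : ℝ) := by exact_mod_cast hGc
  have e2 : (G.card : ℝ) ^ 2 ≤ ((G.image φ).card : ℝ) * (K * (m : ℝ) ^ (10 + δ)) := by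
    have h : ((G.card ^ 2 : ℕ) : ℝ) ≤ (((G.image φ).card *
      ((G ×ˢ G).filter (fun p => φ p.1 = φ p.2)).card : ℕ) : ℝ) := Nat.cast_le.2 hcs
    rw [Nat.cast_pow, Nat.cast_mul] at h
    exact h.trans (mul_le_mul_of_nonneg_left hpair (Nat.cast_nonneg _))
  have e3 : ((m : ℝ) ^ 10 / 2) ^ 2 ≤ (G.card : ℝ) ^ 2 :=
    pow_le_pow_left₀ (by positivity) (by linarith) 2
  have e4 : ((G.image φ).card : ℝ) ≤ ((RS 9 C (n ^ 20)).ncard : ℝ) := by exact_mod_cast hle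
  have e5 : (n : ℝ) ^ (30 - 3 * δ) * (m : ℝ) ^ (10 + δ) = ((m : ℝ) ^ 10) ^ 2 := by
    have h1 : (m : ℝ) = (n : ℝ) ^ (3 : ℝ) := by
      rw [hm]
      push_cast
      rw [← Real.rpow_natCast]
      norm_num
    have h2 : ((m : ℝ) ^ 10) ^ 2 = (m : ℝ) ^ (20 : ℝ) := by
      rw [← pow_mul, ← Real.rpow_natCast]
      norm_num
    rw [h2, h1, ← Real.rpow_mul hnr.le, ← Real.rpow_mul hnr.le, ← Real.rpow_add hnr]
    congr 1
    ring
  have hpos : (0 : ℝ) < K * (m : ℝ) ^ (10 + δ) := by positivity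
  refine le_trans ?_ e4
  refine le_of_mul_le_mul_right ?_ hpos
  refine le_trans (le_of_eq ?_) (e3.trans e2)
  have : 1 / (4 * K) * (n : ℝ) ^ (30 - 3 * δ) * (K * (m : ℝ) ^ (10 + δ)) =
      (1 / (4 * K) * K) * ((n : ℝ) ^ (30 - 3 * δ) * (m : ℝ) ^ (10 + δ)) := by ring
  rw [this, e5]
  have hK4 : 1 / (4 * K) * K = 1 / 4 := by
    field_simp
  rw [hK4]
  ring

theorem st_FIN9 (hCERT : ST_CERT9) (hCONG : ST_CONG9) (hBND : ST_BND9) (hSIEVE : ST_SIE9)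
    (hPAIR : ST_PAIR9) (hGEN : ST_GEN) : ST_FIN9 := by
  intro ε hε
  obtain ⟨C, hC, h1⟩ := fin9_main hCERT hCONG hBND hSIEVE hPAIR
  set δ : ℝ := min ε 1 with hδ
  have hδ0 : 0 < δ := lt_min hε one_pos
  have hδ1 : δ ≤ 1 := min_le_right _ _
  have hδε : δ ≤ ε := min_le_left _ _
  obtain ⟨c, hc, n0, hn⟩ := h1 δ hδ0
  have he : (0 : ℝ) < (30 - 3 * δ) / 20 := by linarith
  have he3 : (0 : ℝ) < 30 - 3 * δ := by linarith
  have hk : (0 : ℝ) < c * (1 / 2) ^ (30 - 3 * δ) := by positivity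
  obtain ⟨c', hc', H₀, hH⟩ := hGEN 9 C hC ((30 - 3 * δ) / 20) (c * (1 / 2) ^ (30 - 3 * δ)) he hk
    ((n0 + 2) ^ 20) (by
      intro N hN
      set x : ℝ := (N : ℝ) ^ ((1 : ℝ) / 20) with hx
      have hx0 : (0 : ℝ) ≤ x := by positivity
      have hx20 : x ^ 20 = (N : ℝ) := by
        rw [hx, ← Real.rpow_natCast, ← Real.rpow_mul (by positivity)]
        norm_num
      set n : ℕ := ⌊x⌋₊ with hndef
      have hnx : (n : ℝ) ≤ x := Nat.floor_le hx0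
      have hxn : x < (n : ℝ) + 1 := Nat.lt_floor_add_one x
      have hbig : ((n0 : ℝ) + 2) ≤ x := by
        have h1 : (((n0 : ℝ) + 2)) ^ 20 ≤ x ^ 20 := by
          rw [hx20]
          exact_mod_cast hN
        exact le_of_pow_le_pow_left₀ (by norm_num) hx0 h1
      have hn0 : n0 ≤ n := by
        rw [hndef]
        apply Nat.le_floor
        linarith
      have hn2 : x / 2 ≤ (n : ℝ) := by
        have : (0 : ℝ) ≤ (n0 : ℝ) := Nat.cast_nonneg _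
        linarith
      have hnN : n ^ 20 ≤ N := by
        have h1 : (n : ℝ) ^ 20 ≤ x ^ 20 := pow_le_pow_left₀ (Nat.cast_nonneg _) hnx 20
        rw [hx20] at h1
        exact_mod_cast h1
      have hsub : RS 9 C (n ^ 20) ⊆ RS 9 C N := by
        rintro p ⟨a1, a2, a3, a4, a5⟩
        have hle : ((n ^ 20 : ℕ) : ℤ) ≤ (N : ℤ) := by exact_mod_cast hnN
        have h0 : (0 : ℤ) ≤ ((n ^ 20 : ℕ) : ℤ) := by positivity
        refine ⟨a1, a2, a3.trans ?_, a4.trans ?_, a5⟩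
        · exact mul_le_mul_of_nonneg_left (pow_le_pow_left₀ h0 hle 4) (by linarith)
        · exact mul_le_mul_of_nonneg_left (pow_le_pow_left₀ h0 hle 6) (by linarith)
      have hcard : ((RS 9 C (n ^ 20)).ncard : ℝ) ≤ ((RS 9 C N).ncard : ℝ) := by
        exact_mod_cast Set.ncard_le_ncard hsub (cnt_RS_fin 9 C N)
      refine le_trans ?_ ((hn n hn0).trans hcard)
      rw [mul_assoc]
      apply mul_le_mul_of_nonneg_left _ hc.le
      have h2 : (N : ℝ) ^ ((30 - 3 * δ) / 20) = x ^ (30 - 3 * δ) := by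
        rw [hx, ← Real.rpow_mul (by positivity)]
        congr 1
        ring
      rw [h2, ← Real.mul_rpow (by norm_num) hx0]
      refine Real.rpow_le_rpow (by positivity) ?_ he3.le
      linarith)
  have hgap : (0 : ℝ) < ε - δ / 80 := by linarith
  refine ⟨max H₀ (max 1 ((1 / c') ^ (1 / (ε - δ / 80)))), fun H hH' => ?_⟩
  have e1 : H₀ ≤ H := le_trans (le_max_left _ _) hH'
  have e2 : (1 : ℝ) ≤ H := le_trans (le_trans (le_max_left _ _) (le_max_right _ _)) hH'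
  have e3 : (1 / c') ^ (1 / (ε - δ / 80)) ≤ H :=
    le_trans (le_trans (le_max_right _ _) (le_max_right _ _)) hH'
  have hpos : (0 : ℝ) < H := by linarith
  have e4 : 1 / c' ≤ H ^ (ε - δ / 80) := by
    have := Real.rpow_le_rpow (by positivity) e3 hgap.le
    rwa [← Real.rpow_mul (by positivity), one_div_mul_cancel hgap.ne', Real.rpow_one] at this
  refine le_trans ?_ (hH H e1)
  have e5 : H ^ ((30 - 3 * δ) / 20 / 12) = H ^ ((1 : ℝ) / 8 - ε) * H ^ (ε - δ / 80) := by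
    rw [← Real.rpow_add hpos]
    congr 1
    ring
  rw [e5]
  have e6 : (1 : ℝ) ≤ c' * H ^ (ε - δ / 80) := by
    have := mul_le_mul_of_nonneg_left e4 hc'.le
    rwa [mul_one_div_cancel hc'.ne'] at this
  have e7 : (0 : ℝ) ≤ H ^ ((1 : ℝ) / 8 - ε) := by positivity
  nlinarith

end Pool.Helper89.R9W
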