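import Mathlib
import Pool.Agent.Helper97.RK.Stmts
import Pool.Agent.Helper17.RS.Sheet
import Pool.Agent.Helper17.R8.Sheet
import Pool.Agent.Helper34.R9.Sheet

/-! # Statements for `N_9(H) ≥ H ^ (1/8 - ε)` (MP_798d7d_nt)

FAMILY of `Helper17/R8/Sheet.lean` (same six parameters `u`, `s_7 = 1`), with `t = τ(Y)`,
`τ(Y) = -(Y² + g1 Y + g1 + e 4 - e 5)`, `g1 = 1 + e 2 - e 3`: then the cubic has the further point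
`(X : Z : Y) = (1 : 1 : Y)` (vertical line through `P_7`), that is the quartic has the point `m = Y`.
`m⁶` values of `u ∼ m`, `m⁴` values of `Y ∼ m⁴` (`m⁴ ≤ b < 2 m⁴`), `t ∼ m⁸`, `A = O(m²⁶)`, `B = O(m⁴⁰)`,
height `m⁸⁰`, `m¹⁰` members.
COLLISIONS: `WIN` (Helper89/R9/WIN.lean): `|e 2 - e' 2| ≤ K`; `PR2`: `m^(10 + ε)` such pairs `(u, u')`;
CURVE and INJ: `O(1)` pairs `(Y, Y')` for each.
-/

set_option autoImplicit false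

namespace Pool.Helper89.R9W

open Pool.Agent.Helper97.RK (cur)
open Pool.Helper17.RS (RS NR ST_GEN)
open Pool.Helper17.R8 (ek q4 q3 q2 q1 q0 fI fJ ss yv y9 xX pI pJ)
open Pool.Helper34.R9 (fJh rho)
open Polynomial

/-- the parameters `(u, Y)` -/
abbrev Par : Type := (Fin 6 → ℤ) × ℤ

def QQ : ℕ := 1000
def MM : ℤ := 1728 * (Nat.factorial QQ : ℤ)

section
variable {R : Type*} [CommRing R]
def g1 (e : ℕ → R) : R := 1 + e 2 - e 3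
/-- the value of `t` -/
def tau (e : ℕ → R) (Y : R) : R := -(Y ^ 2 + g1 e * Y + g1 e + e 4 - e 5)
/-- `4 t = EE - (2 Y + g1)²` -/
def EE (e : ℕ → R) : R := g1 e ^ 2 - 4 * (g1 e + e 4 - e 5)
/-- the ordinate at `m = Y` -/
def yY (e : ℕ → R) (t Y : R) : R :=
  2 * (Y ^ 3 + e 2 * Y ^ 2 + e 4 * Y - (t - e 6)) - (e 3 * Y ^ 2 + e 5 * Y + e 7)
end

/-- the base: `s = (-7, 5, 11, 9, -15, -17, 1, 13)`, `Y = -40`, `t = 325853`,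
`e 2, .., e 8 = -480, -1416, 68466, 359376, -2129032, -13905480, -11486475` -/
def ub : Fin 6 → ℤ := ![-7, 5, 11, 9, -15, -17]
def Cong (w : Par) : Prop := (∀ i, MM ∣ w.1 i - ub i) ∧ MM ∣ w.2 + 40

def tt (w : Par) : ℤ := tau (ek (ss w.1)) w.2
def cA (w : Par) : ℤ := (-(fI (ek (ss w.1)) (tt w))) / 48
def cB (w : Par) : ℤ := (-(fJ (ek (ss w.1)) (tt w))) / 1728

/-- the members of size `m` (the direction `(1, 3, 3, 2, -1, -3, 0, -5)` of `a 0` is generic) -/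
def cc : Fin 6 → ℤ := ![0, 3, 3, 2, -1, -3]
def ww (T : (Fin 6 → ℕ) × ℕ) : Par :=
  (fun i => ub i + MM * ((T.1 i : ℤ) + cc i * (T.1 0 : ℤ)), -40 + MM * (T.2 : ℤ))
def VB (m : ℕ) : Finset (Fin 6 → ℕ) := Fintype.piFinset fun _ => Finset.range m
def Box (m : ℕ) : Finset ((Fin 6 → ℕ) × ℕ) := VB m ×ˢ Finset.Ico (m ^ 4) (2 * m ^ 4)

/-- the nine points: `px / pv²` -/
def sj (j : Fin 9) : Fin 8 := ⟨j.val % 8, Nat.mod_lt _ (by norm_num)⟩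
def px (w : Par) (j : Fin 9) : ℤ :=
  if j = 8 then
    3 * xX (ek (ss w.1)) (tt w) (ss w.1 0 ^ 2) (yv (ek (ss w.1)) (tt w) (ss w.1 0)) w.2 1
      (yY (ek (ss w.1)) (tt w) w.2)
  else if j = 7 then
    3 * xX (ek (ss w.1)) (tt w) (ss w.1 0 ^ 2) (yv (ek (ss w.1)) (tt w) (ss w.1 0))
      (-(ek (ss w.1) 8)) (tt w) (y9 (ek (ss w.1)) (tt w))
  else
    3 * xX (ek (ss w.1)) (tt w) (ss w.1 (sj j) ^ 2) (yv (ek (ss w.1)) (tt w) (ss w.1 (sj j)))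
      (ss w.1 7 ^ 2) 1 (yv (ek (ss w.1)) (tt w) (ss w.1 7))
def pv (w : Par) (j : Fin 9) : ℤ :=
  if j = 8 then 6 * (ss w.1 0 ^ 2 - w.2)
  else if j = 7 then 6 * (ss w.1 0 ^ 2 * tt w + ek (ss w.1) 8)
  else 6 * (ss w.1 (sj j) ^ 2 - ss w.1 7 ^ 2)

/-! ## The family -/

/-- REL9 (as `Helper46/R8/REL.lean`). -/
def ST_REL9 : Prop := ∀ w : Par, Cong w →
  48 * cA w = -(fI (ek (ss w.1)) (tt w)) ∧ 1728 * cB w = -(fJ (ek (ss w.1)) (tt w)) ∧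
  ((QQ.factorial : ℕ) : ℤ) ∣ cA w - (-3435770896397500827) ∧
  ((QQ.factorial : ℕ) : ℤ) ∣ cB w - 2479977199069391496654257546

/-- PTS9 (from `Pool.Helper17.R8.ST_VIE`, `Pool.Helper17.R8.ST_PT`, REL9; as `Helper34/R8/PTS.lean`; the
ninth point: `chk_yY`).  `pv ≠ 0` modulo 13 at the base (`8, 7, 11, 5, 11, 5, 6, 12, 1`). -/
def ST_PTS9 : Prop := ∀ w : Par, Cong w → ∀ j : Fin 9, pv w j ≠ 0 ∧
  ∃ y : ℚ, y ^ 2 = ((px w j : ℚ) / (pv w j : ℚ) ^ 2) ^ 3 +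
    (cA w : ℚ) * ((px w j : ℚ) / (pv w j : ℚ) ^ 2) + (cB w : ℚ)

/-- CERT9 (from REL9, PTS9, `Pool.Helper17.R8.ST_RANKQ`).  `gcd(A, B) = 1` at the base; no root modulo
7; the characters `(q, x)`: signs of `px j - x (pv j)²`, `j = 0, .., 8`:
`(13, 0): (+,-,-,+,-,+,+,-,-)`; `(13, 7): (+,+,-,-,-,-,+,+,+)`; `(17, 13): (-,-,-,-,+,+,+,-,-)`;
`(19, 5): (-,-,-,+,+,+,-,-,-)`; `(19, 16): (+,-,+,+,-,-,-,+,+)`; `(23, 3): (-,+,-,+,-,-,+,-,+)`;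
`(23, 6): (-,-,-,+,+,-,-,+,+)`; `(29, 11): (-,-,-,-,+,-,+,-,+)`; `(31, 4): (-,-,-,-,-,+,-,-,+)`
(nonsingular, independent over `𝔽₂`).  As `Helper46/R8/CERT.lean`. -/
def ST_CERT9 : Prop := ∀ w : Par, Cong w →
  4 * cA w ^ 3 + 27 * cB w ^ 2 ≠ 0 ∧
  (∀ q : ℕ, q.Prime → q ≤ QQ → ¬ ((q : ℤ) ∣ cA w ∧ (q : ℤ) ∣ cB w)) ∧
  (9 : Cardinal) ≤ Module.rank ℤ ((cur (cA w) (cB w)).toAffine).Point

/-- CONG9: members of the box are in the class; `ww` is injective. -/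
def ST_CONG9 : Prop := (∀ T, Cong (ww T)) ∧ Function.Injective ww

/-- BND9 (from REL9, CONG9; as `Helper84/R8/BND.lean`).  `Y ∼ MM m⁴`, `|g1| ≤ C m³`, so
`t = -Y² (1 + O(1/m))`. -/
def ST_BND9 : Prop := ∃ C : ℤ, 1 ≤ C ∧ ∃ m0 : ℕ, ∀ m : ℕ, m0 ≤ m → ∀ T ∈ Box m,
  |cA (ww T)| ≤ C * (m : ℤ) ^ 26 ∧ |cB (ww T)| ≤ C * (m : ℤ) ^ 40 ∧
  (m : ℤ) ^ 8 ≤ |tt (ww T)| ∧ |tt (ww T)| ≤ C * (m : ℤ) ^ 8 ∧
  ∀ k, 2 ≤ k → k ≤ 8 → |ek (ss (ww T).1) k| ≤ C * (m : ℤ) ^ k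

/-! ## Sieve -/

open Classical in
/-- SVW (from ROOT, SV1, SV3 of `Helper34.R9`; the same proof as `ST_SV9` there, with six parameters
and `m⁴ ≤ b < 2 m⁴`).  `q ≤ m`, `q ∤ z`: SV1, at most `m⁶ ∑ 10 (2 m⁴ / q² + 1) ≤ 20 m¹⁰ / Q + 10 m⁷`.
`q ≤ m`, `q ∣ z`: `q ∣ W`, for each `(a 1, .., a 5)` at most `d (m / q + 1)` values of `a 0` (ROOT) and
`2 m⁴ / q + 1` of `b` (`z` is a progression modulo `q`): at most `180 m¹⁰ / Q`.  `q > m`: `q ∣ ρ(a)`, at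
most `K + 1` such primes for each `a` (as soon as `m ≥ C`), and SV3: at most
`m⁶ (K + 1) 30 m³`. -/
def ST_SVW : Prop := ∀ (Q d K : ℕ) (M κ lam : ℤ) (P : (Fin 6 → ℕ) → ℤ[X])
  (E ρ zb : (Fin 6 → ℕ) → ℤ) (W : (Fin 5 → ℕ) → ℤ[X]) (A B t : (Fin 6 → ℕ) × ℕ → ℤ) (C : ℤ),
  1000 ≤ Q → d ≤ 30 → 1 ≤ C →
  (∀ q : ℕ, q.Prime → Q < q → ¬ (q : ℤ) ∣ M ∧ ¬ (q : ℤ) ∣ κ ∧ ¬ (q : ℤ) ∣ lam ∧
    ∀ v, ¬ (q : ℤ) ∣ (W v).coeff d) →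
  (∀ a, (P a).natDegree = 5 ∧ (P a).leadingCoeff = lam) → (∀ v, (W v).natDegree ≤ d) →
  (∀ T, κ * t T = E T.1 - (zb T.1 + M * (T.2 : ℤ)) ^ 2) →
  (∀ T (q k : ℕ), q.Prime → Q < q → (q : ℤ) ^ k ∣ B T → (q : ℤ) ^ k ∣ (P T.1).eval (t T)) →
  (∀ a (q : ℕ), q.Prime → Q < q → ∀ t : ℤ, (q : ℤ) ∣ κ * t - E a → (q : ℤ) ∣ (P a).eval t →
    (q : ℤ) ∣ (W (fun i => a i.succ)).eval (a 0 : ℤ)) →
  (∀ T (q : ℕ), q.Prime → Q < q → (q : ℤ) ∣ A T → (q : ℤ) ∣ B T → (q : ℤ) ∣ ρ T.1) →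
  (∀ a, ρ a ≠ 0) → (∀ m : ℕ, 1 ≤ m → ∀ a ∈ VB m, |ρ a| ≤ C * (m : ℤ) ^ K) →
  ∃ m0 : ℕ, ∀ m : ℕ, m0 ≤ m →
    2 * ((Box m).filter (fun T => ∃ q : ℕ, q.Prime ∧ Q < q ∧ (q : ℤ) ^ 4 ∣ A T ∧
      (q : ℤ) ^ 6 ∣ B T)).card ≤ m ^ 10

/-- VTX (from `EKL`, `LEAD` of `Helper34.R9`).  `W v = fJh (ek S) 4 (EE (ek S))` for the linear
polynomials `S i` in `X = a 0`; leading coefficient `MM³⁰ fJh (ek l) 4 ((e₃ l)²)`,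
`l = (1, 3, 3, 2, -1, -3, 0, -5)`, and the last factor is `-2¹⁶ 3¹⁸ 5⁶` (`chk_lead`).
`4⁵ fJ e t ≡ fJh e 4 (EE e)` modulo `q` if `q ∣ 4 t - EE e` (`chk_fJh`). -/
def ST_VTX : Prop := ∃ W : (Fin 5 → ℕ) → ℤ[X], (∀ v, (W v).natDegree ≤ 30) ∧
  (∀ q : ℕ, q.Prime → QQ < q → ∀ v, ¬ (q : ℤ) ∣ (W v).coeff 30) ∧
  ∀ (a : Fin 6 → ℕ) (q : ℕ), q.Prime → QQ < q → ∀ t : ℤ,
    (q : ℤ) ∣ 4 * t - EE (ek (ss (ww (a, 0)).1)) → (q : ℤ) ∣ fJ (ek (ss (ww (a, 0)).1)) t →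
    (q : ℤ) ∣ (W (fun i => a i.succ)).eval (a 0 : ℤ)

/-- RHO (from RES1, RES2, RES3 of `Helper34.R9`, REL9, CONG9).  Nonzero: RES3 with `p = 7`
(`48 e 2 ≡ 4`, and `fI`, `fJ` are coprime modulo 7 at the base). -/
def ST_RHO : Prop := ∃ (C : ℤ) (K : ℕ), 1 ≤ C ∧
  (∀ a : Fin 6 → ℕ, rho (ek (ss (ww (a, 0)).1)) ≠ 0) ∧
  (∀ T (q : ℕ), q.Prime → QQ < q → (q : ℤ) ∣ cA (ww T) → (q : ℤ) ∣ cB (ww T) →
    (q : ℤ) ∣ rho (ek (ss (ww T).1))) ∧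
  ∀ m : ℕ, 1 ≤ m → ∀ a ∈ VB m, |rho (ek (ss (ww (a, 0)).1))| ≤ C * (m : ℤ) ^ K

open Classical in
/-- SIE9 (from SVW, VTX, RHO, REL9, CONG9), with `κ = 4`, `z = 2 Y + g1`, `M = 2 MM`. -/
def ST_SIE9 : Prop := ∃ m0 : ℕ, ∀ m : ℕ, m0 ≤ m →
  2 * ((Box m).filter (fun T => ∃ q : ℕ, q.Prime ∧ QQ < q ∧ (q : ℤ) ^ 4 ∣ cA (ww T) ∧
    (q : ℤ) ^ 6 ∣ cB (ww T))).card ≤ m ^ 10

/-! ## Collisions -/

/-- INJ9 (as `Helper25/R8/INJ.lean`, from `Pool.Helper17.R8.ST_LINZ`, `ST_VIE`).  `p = 29`, matrix of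
the `L` modulo 29 (rows `fI`, `fJ` at `0, 1, 2, 3`; columns `e2, .., e8, t`):
`fI`: `(22,13,13,19,23,25,2,5), (9,8,1,10,21,0,26,19), (25,25,0,22,18,4,23,7),
(10,6,10,26,14,8,22,27)`; `fJ`: `(7,7,25,12,26,16,12,20), (11,22,26,25,19,10,4,24),
(18,2,28,10,10,19,20,26), (20,24,6,1,16,15,7,5)` is invertible.  Base roots modulo 29:
`22, 5, 11, 9, 14, 12, 1, 13`, distinct. -/
def ST_INJ9 : Prop := ∀ w w' : Par, Cong w → Cong w' → ∀ β : ℤ, (29 : ℤ) ∣ β →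
  (∀ τ : ℤ, fI (ek (ss w'.1)) (τ + β) = fI (ek (ss w.1)) τ ∧
    fJ (ek (ss w'.1)) (τ + β) = fJ (ek (ss w.1)) τ) → w.1 = w'.1

open Classical in
/-- CNC (conic; from `Pool.Agent.Helper97.RK.ST_PELLN` with `d = -3` and
`Pool.Agent.Helper15.Hall.card_divisors_le_uniform`): `x² + x y + y² + c x + c y = n` gives
`(3 (x + y) + 2 c)² + 3 (x - y)² = 4 (3 n + c²)`, `N = 4 (3 n + c²)`; `N = 0` gives one point. -/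
def ST_CNC : Prop := ∀ ε : ℝ, 0 < ε → ∀ C : ℕ, ∃ K : ℝ, 0 < K ∧ ∀ (m : ℕ) (c n : ℤ), 1 ≤ m →
  |c| ≤ C * m → |n| ≤ C * (m : ℤ) ^ 2 → ∀ S : Finset (ℤ × ℤ),
  (∀ z ∈ S, |z.1| ≤ C * m ∧ |z.2| ≤ C * m ∧
    z.1 ^ 2 + z.1 * z.2 + z.2 ^ 2 + c * z.1 + c * z.2 = n) → (S.card : ℝ) ≤ K * (m : ℝ) ^ ε

open Classical in
/-- PR2 (from CNC).  `- e 2 = x² + x y + y² + c (x + y) + rest` for `x = u 4`, `y = u 5`,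
`c = u 0 + u 1 + u 2 + u 3 + 1`.  Given `a'` and `a 0, .., a 3` there are `2 L + 1` values of `e 2`, and then
`K m^ε` of `(a 4, a 5)`. -/
def ST_PR2 : Prop := ∀ ε : ℝ, 0 < ε → ∀ L : ℕ, ∃ K : ℝ, 0 < K ∧ ∀ m : ℕ, 1 ≤ m →
  (((VB m ×ˢ VB m).filter (fun p => |ek (ss (ww (p.1, 0)).1) 2 -
    ek (ss (ww (p.2, 0)).1) 2| ≤ (L : ℤ))).card : ℝ) ≤ K * (m : ℝ) ^ (10 + ε)

open Classical in
/-- PAIR9 (from `Pool.Helper89.R9.win`, PR2, `Pool.Helper17.R8.ST_CURVE`, INJ9, REL9, CONG9, BND9;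
compare `Helper29/R8/PAIR.lean`).  `u ≠ u'`: `|e 2 - e' 2| ≤ L` by `win` (`U = m`, `T = m⁸`), less than
200 pairs `(t, t')`, each `t` has at most 2 values of `Y`; `u = u'`: for each `Y` at most 5 values of `t'`,
10 of `Y'`: at most `10 m¹⁰`. -/
def ST_PAIR9 : Prop := ∀ ε : ℝ, 0 < ε → ∃ K : ℝ, 0 < K ∧ ∃ m0 : ℕ, ∀ m : ℕ, m0 ≤ m →
  (((Box m ×ˢ Box m).filter (fun p => cA (ww p.1) = cA (ww p.2) ∧
    cB (ww p.1) = cB (ww p.2))).card : ℝ) ≤ K * (m : ℝ) ^ (10 + ε)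

/-! ## The theorem -/

/-- FIN9 (from CERT9, BND9, SIE9, PAIR9, CONG9, ST_GEN).  `n = ⌊N^(1/20)⌋`, `m = n³`:
`C m²⁶ ≤ C N⁴`, `C m⁴⁰ ≤ C N⁶`; the good members (half of `Box m`, so `m¹⁰ / 2`; reduced: a prime with
`q⁴ ∣ A`, `q⁶ ∣ B` is `> QQ` by CERT9) have at least `(m¹⁰ / 2)² / (K m^(10 + δ))` different `(A, B)`, all in
`RS 9 C N`; ST_GEN with `e = 3 / 2 - δ'`.  Compare `Helper17/R8/FIN.lean`, `Helper17/R6/FIN.lean`. -/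
def ST_FIN9 : Prop := ∀ ε : ℝ, 0 < ε → ∃ H₀ : ℝ, ∀ H : ℝ, H₀ ≤ H →
  H ^ ((1 : ℝ) / 8 - ε) ≤ (NR 9 H : ℝ)

/-! ## Checks -/

theorem chk_tau (e : ℕ → ℤ) (Y : ℤ) : 4 * tau e Y = EE e - (g1 e + 2 * Y) ^ 2 := by
  unfold tau EE
  ring

/-- the ninth point (`1` is a root) -/
theorem chk_yY (e : ℕ → ℤ) (Y : ℤ) (h : 1 + e 2 - e 3 + e 4 - e 5 + e 6 - e 7 + e 8 = 0) :
    yY e (tau e Y) Y ^ 2 = q4 e (tau e Y) * Y ^ 4 + q3 e (tau e Y) * Y ^ 3 +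
      q2 e (tau e Y) * Y ^ 2 + q1 e (tau e Y) * Y + q0 e (tau e Y) := by
  have h8 : e 8 = -1 - e 2 + e 3 - e 4 + e 5 - e 6 + e 7 := by linarith
  unfold yY q4 q3 q2 q1 q0 tau g1
  rw [h8]
  ring

theorem chk_ek : (ek (ss ub) 2, ek (ss ub) 3, ek (ss ub) 4, ek (ss ub) 5, ek (ss ub) 6,
    ek (ss ub) 7, ek (ss ub) 8) =
    (-480, -1416, 68466, 359376, -2129032, -13905480, -11486475) := by decide +kernel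

theorem chk_base : tt (ub, -40) = 325853 ∧ cA (ub, -40) = -3435770896397500827 ∧
    cB (ub, -40) = 2479977199069391496654257546 := by decide +kernel

theorem chk_lead : fJh (ek (![1, 3, 3, 2, -1, -3, 0, -5] : Fin 8 → ℤ)) 4
    (ek (![1, 3, 3, 2, -1, -3, 0, -5] : Fin 8 → ℤ) 3 ^ 2) = -(2 ^ 16 * 3 ^ 18 * 5 ^ 6) := by
  decide +kernel

end Pool.Helper89.R9W
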